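import Mathlib
import Pool.Agent.W533.U.Fin
import Pool.Agent.W533.V.Fin2

/-!
# Unions of two isometrically `ℓ_p`-embeddable metric spaces, `1 ≤ p < ∞`, `p ≠ 2`
-/

namespace Pool.Agent.Results.MP_b531f7_gt.NoUnionConstant

/-- The real sequence space `ℓ_p`. -/
abbrev Ellp (p : ℝ) : Type := lp (fun _ : ℕ => ℝ) (ENNReal.ofReal p)

/-- The metric space `X` embeds isometrically into `ℓ_p`. -/
def EmbedsIsometrically (p : ℝ) (X : Type) [MetricSpace X] : Prop :=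
  ∃ f : X → Ellp p, ∀ x y : X, ‖f x - f y‖ = dist x y

/-- The metric space `X` embeds into `ℓ_p` with distortion at most `D`. -/
def EmbedsWithDistortion (p D : ℝ) (X : Type) [MetricSpace X] : Prop :=
  ∃ (f : X → Ellp p) (s : ℝ), 0 < s ∧
    ∀ x y : X, s * dist x y ≤ ‖f x - f y‖ ∧ ‖f x - f y‖ ≤ s * D * dist x y

/-- Let `1 ≤ p < ∞`, `p ≠ 2`. For every `D` there is a (finite) metric space `X = A ∪ B` such that
`A` and `B` embed isometrically into `ℓ_p`, while `X` does not embed into `ℓ_p` with distortion at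
most `D`. -/
theorem result (p : ℝ) (hp1 : 1 ≤ p) (hp2 : p ≠ 2) (D : ℝ) :
    ∃ (X : Type) (_ : MetricSpace X) (A B : Set X), Finite X ∧ A ∪ B = Set.univ ∧
      EmbedsIsometrically p A ∧ EmbedsIsometrically p B ∧ ¬ EmbedsWithDistortion p D X := by
  haveI : Fact (1 ≤ ENNReal.ofReal p) := ⟨by simpa using hp1⟩
  have hex : ∃ (Lt : Type) (M : MetricSpace (Lt ⊕ Lt)) (φ ψ : Lt → Ellp p) (P : Set (Lt ⊕ Lt)),
      P.Finite ∧
      (∀ a b, M.dist (Sum.inl a) (Sum.inl b) = ‖φ a - φ b‖) ∧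
      (∀ a b, M.dist (Sum.inr a) (Sum.inr b) = ‖ψ a - ψ b‖) ∧
      ¬ ∃ F : Lt ⊕ Lt → Ellp p, (∀ x ∈ P, ∀ y ∈ P, M.dist x y ≤ ‖F x - F y‖) ∧
        (∀ x ∈ P, ∀ y ∈ P, ‖F x - F y‖ ≤ max D 1 * M.dist x y) := by
    rcases lt_or_gt_of_ne hp2 with h | h
    · exact Pool.Agent.W533.U.no_embed hp1 h (le_max_right _ _)
    · exact Pool.Agent.W533.V.no_embed_gt h (le_max_right _ _)
  obtain ⟨Lt, M, φ, ψ, P, hP, hφ, hψ, hno⟩ := hex
  letI := M
  refine ⟨P, inferInstance, {x | ∃ a, x.1 = Sum.inl a}, {x | ∃ a, x.1 = Sum.inr a},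
    hP.to_subtype, ?_, ?_, ?_, ?_⟩
  · ext x
    simp only [Set.mem_union, Set.mem_setOf_eq, Set.mem_univ, iff_true]
    rcases x.1 with a | a
    · exact Or.inl ⟨a, rfl⟩
    · exact Or.inr ⟨a, rfl⟩
  · refine ⟨fun x => φ x.2.choose, fun x y => ?_⟩
    have hx := x.2.choose_spec
    have hy := y.2.choose_spec
    have e : dist x y = dist (x.1.1 : Lt ⊕ Lt) y.1.1 := rfl
    rw [e, hx, hy]
    exact (hφ _ _).symm
  · refine ⟨fun x => ψ x.2.choose, fun x y => ?_⟩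
    have hx := x.2.choose_spec
    have hy := y.2.choose_spec
    have e : dist x y = dist (x.1.1 : Lt ⊕ Lt) y.1.1 := rfl
    rw [e, hx, hy]
    exact (hψ _ _).symm
  · rintro ⟨f, s, hs, hf⟩
    classical
    apply hno
    have hkey : ∀ x : Lt ⊕ Lt, ∀ hx : x ∈ P, ∀ y : Lt ⊕ Lt, ∀ hy : y ∈ P,
        ‖(s⁻¹ • f ⟨x, hx⟩ : Ellp p) - s⁻¹ • f ⟨y, hy⟩‖ = s⁻¹ * ‖f ⟨x, hx⟩ - f ⟨y, hy⟩‖ := by
      intro x hx y hy
      rw [← smul_sub, norm_smul, Real.norm_eq_abs, abs_of_pos (inv_pos.2 hs)]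
    refine ⟨fun x => if hx : x ∈ P then s⁻¹ • f ⟨x, hx⟩ else 0, fun x hx y hy => ?_,
      fun x hx y hy => ?_⟩
    · simp only [dif_pos hx, dif_pos hy]
      rw [hkey x hx y hy]
      have h1 : s * dist x y ≤ ‖f ⟨x, hx⟩ - f ⟨y, hy⟩‖ := (hf ⟨x, hx⟩ ⟨y, hy⟩).1
      rw [inv_mul_eq_div, le_div_iff₀ hs]
      linarith
    · simp only [dif_pos hx, dif_pos hy]
      rw [hkey x hx y hy]
      have h1 : ‖f ⟨x, hx⟩ - f ⟨y, hy⟩‖ ≤ s * D * dist x y := (hf ⟨x, hx⟩ ⟨y, hy⟩).2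
      have hd : (0 : ℝ) ≤ dist x y := dist_nonneg
      have h2 : D * dist x y ≤ max D 1 * dist x y :=
        mul_le_mul_of_nonneg_right (le_max_left _ _) hd
      have h3 : s⁻¹ * ‖f ⟨x, hx⟩ - f ⟨y, hy⟩‖ ≤ D * dist x y := by
        rw [inv_mul_eq_div, div_le_iff₀ hs]
        linarith
      exact h3.trans h2

end Pool.Agent.Results.MP_b531f7_gt.NoUnionConstant
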